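import Pool.Agent.Helper3.Hert.Spec

/-!
# HV-14: orders of the classes of monomials
-/

open scoped PowerSeries

namespace Pool.Agent.Helper3.Hert

noncomputable section

open Spec

variable {O : Type*} [CommRing O] [IsDomain O] [Algebra ℂ O] (E : EvRing O)

namespace EvRing

theorem v3_mem : E.v 3 ∈ E.T :=
  ⟨E.ev_ne 0 3 (by decide), E.ev_ne 1 3 (by decide), E.ev_ne 2 3 (by decide)⟩

/-- The function `t`. -/
def tau : E.T := ⟨E.v 3, E.v3_mem⟩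

theorem D3_mem {g : O} (hg : g ∈ E.T) : E.D 3 g ∈ E.T := by
  obtain ⟨h0, h1, h2⟩ := hg
  refine ⟨?_, ?_, ?_⟩
  · rw [← E.D_ev 3 0 (by decide), h0]
  · rw [← E.D_ev 3 1 (by decide), h1]
  · rw [← E.D_ev 3 2 (by decide), h2]

/-- The derivation `∂_t` on functions of `t`. -/
def dT : Derivation ℂ E.T E.T where
  toFun g := ⟨E.D 3 g.1, E.D3_mem g.2⟩
  map_add' g g' := Subtype.ext (map_add (E.D 3) g.1 g'.1)
  map_smul' c g := Subtype.ext ((E.D 3).map_smul c g.1)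
  map_one_eq_zero' := Subtype.ext (E.D 3).map_one_eq_zero
  leibniz' g g' := Subtype.ext ((E.D 3).leibniz g.1 g'.1)

theorem dT_tau : E.dT E.tau = 1 := Subtype.ext (E.D_self 3)

theorem coe_dT (g : E.T) : ((E.dT g : E.T) : O) = E.D 3 g := rfl

theorem T_split (φ : E.T) : ∃ (c : ℂ) (ψ : E.T), φ = algebraMap ℂ E.T c + E.tau * ψ := by
  obtain ⟨g, h0, h1, h2⟩ := φ
  obtain ⟨c, hc⟩ := E.const g
  have e3 : E.ev 3 g = algebraMap ℂ O c := by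
    rw [← hc, E.ev_comm 2 3, h2, E.ev_comm 1 3, h1, E.ev_comm 0 3, h0]
  obtain ⟨w, hw⟩ := E.dvd_sub 3 g
  rw [e3] at hw
  have hT : ∀ i : Fin 4, i ≠ 3 → E.ev i g = g → E.ev i w = w := by
    intro i hi hg
    have h := congrArg (E.ev i) hw
    rw [map_sub, map_mul, hg, AlgHom.commutes, E.ev_ne i 3 hi, hw] at h
    exact (mul_left_cancel₀ (E.v_ne 3) h).symm
  refine ⟨c, ⟨w, hT 0 (by decide) h0, hT 1 (by decide) h1, hT 2 (by decide) h2⟩, Subtype.ext ?_⟩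
  show g = algebraMap ℂ O c + E.v 3 * w
  rw [← hw]
  ring

theorem T_unit : ∃ w : E.T, (3 - 13 * E.tau) * w = 1 := by
  obtain ⟨w, hw, h0, h1, h2⟩ := E.isUnit3
  exact ⟨⟨w, h0, h1, h2⟩, Subtype.ext hw⟩

/-- The map `φ ↦ [x^i y^j z^k φ]` on functions of `t`. -/
def XL (i j k : ℕ) : E.T →ₗ[ℂ] GM E.D E.F :=
  (cls E.D E.F) ∘ₗ (LinearMap.mulLeft ℂ (E.v 0 ^ i * E.v 1 ^ j * E.v 2 ^ k)) ∘ₗ
    E.T.val.toLinearMap

theorem XL_apply (i j k : ℕ) (φ : E.T) : E.XL i j k φ = cl E i j k φ := rfl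

theorem XL_tau (i j k n : ℕ) :
    E.XL i j k (E.tau ^ n) = cls E.D E.F (E.mon (i + 1, j + 1, k + 1, n + 1)) := rfl

/-- The order filtration. -/
def P (α : ℚ) : Submodule ℂ⟦X⟧ (GM E.D E.F) :=
  Pfil (fun p : B4 => cls E.D E.F (E.mon p)) (fun p : B4 => nh p) α

end EvRing

theorem nh_eq (a b c d : ℕ) :
    nh (a, b, c, d) = ((a : ℚ) / 2 + (2 * b - a) / 6) + hh ((c : ℚ) - (2 * b - a) / 6) d := by
  unfold nh H780 hh
  push_cast
  rw [← min_div_div_right (by norm_num), ← min_add_add_left]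
  congr 1 <;> ring

theorem P_mem_of {p : ℕ × ℕ × ℕ × ℕ} (hp : p ∈ B4) :
    cls E.D E.F (E.mon p) ∈ E.P (nh p) :=
  pfil_mem (fun p : B4 => cls E.D E.F (E.mon p)) (fun p : B4 => nh p) ⟨p, hp⟩

theorem P_anti {α β : ℚ} (h : α ≤ β) : E.P β ≤ E.P α := pfil_anti _ _ h

theorem P_up (α : ℚ) (g : GM E.D E.F) (h : g ∈ E.P α) :
    (PowerSeries.X : ℂ⟦X⟧) • g ∈ E.P (α + 1) := (pfil_shift _ _ α g).2 h

theorem P_big (α : ℚ) : ∃ K : ℕ, ∀ g ∈ brieskorn E.D E.F,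
    (PowerSeries.X ^ K : ℂ⟦X⟧) • g ∈ E.P α := by
  obtain ⟨K, hK⟩ := pfil_big (fun p : B4 => cls E.D E.F (E.mon p)) (fun p : B4 => nh p) α
  refine ⟨K, fun g hg => hK g ?_⟩
  rw [(asm_basis E).2]
  exact hg

theorem P_smul {α : ℚ} (c : ℂ) {g : GM E.D E.F} (h : g ∈ E.P α) : c • g ∈ E.P α := by
  have e : c • g = (algebraMap ℂ ℂ⟦X⟧ c) • g := (algebraMap_smul ℂ⟦X⟧ c g).symm
  rw [e]
  exact Submodule.smul_mem _ _ h

/-- The relation in the `t`-direction. -/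
theorem XL_t (i j k : ℕ) (ψ : E.T) :
    (PowerSeries.X : ℂ⟦X⟧) • E.XL i j k (E.dT ψ)
      = (6 : ℂ) • E.XL i j (k + 5) (E.tau ^ 5 * ψ) + (13 : ℂ) • E.XL i j k (E.tau ^ 12 * ψ) :=
  rel_t E i j k ψ

/-! ### Membership in `B4` -/

theorem memB4X {a b r d : ℕ} (hab : (a = 1 ∧ 1 ≤ b ∧ b ≤ 3) ∨ (a = 2 ∧ b = 1)) (hr : 0 < r)
    (hr' : r + a ≤ 6) (hd : 0 < d) (hd' : d ≤ 13 + fl a b r) (hfl : fl a b r ≤ 5) :
    (a, b, r, d) ∈ B4 := by
  unfold B4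
  simp only [Finset.mem_union]
  left; left; left; left; left
  rw [Finset.mem_filter]
  refine ⟨?_, hd'⟩
  simp only [Finset.mem_union, Finset.mem_product, Finset.mem_singleton, Finset.mem_Icc]
  rcases hab with ⟨h, h1, h2⟩ | ⟨h, h1⟩
  · left; omega
  · right; omega

theorem memB4Y {a b r d : ℕ} (hab : (a = 1 ∧ 1 ≤ b ∧ b ≤ 3) ∨ (a = 2 ∧ b = 1)) (hr : 0 < r)
    (hr' : r + a ≤ 6) (hd : 0 < d) (hd' : d ≤ 5) : (a, b, r + 5, d) ∈ B4 := by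
  unfold B4
  simp only [Finset.mem_union]
  rcases hab with ⟨h, h1, h2⟩ | ⟨h, h1⟩
  · left; left; left; left; right
    simp only [Finset.mem_product, Finset.mem_singleton, Finset.mem_Icc]
    omega
  · left; left; left; right
    simp only [Finset.mem_product, Finset.mem_singleton, Finset.mem_Icc]
    omega

theorem memB4Z {a b r d : ℕ} (hab : (a = 1 ∧ 1 ≤ b ∧ b ≤ 3) ∨ (a = 2 ∧ b = 1)) (hr : 0 < r)
    (hr' : r + a ≤ 6) (hd : fl a b r < d) (hd' : d ≤ 5) : (a, b, r + 10, d) ∈ B4 := by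
  unfold B4
  simp only [Finset.mem_union]
  left; left; right
  rw [Finset.mem_filter]
  refine ⟨?_, ?_⟩
  · simp only [Finset.mem_union, Finset.mem_product, Finset.mem_singleton, Finset.mem_Icc]
    rcases hab with ⟨h, h1, h2⟩ | ⟨h, h1⟩
    · left; omega
    · right; omega
  · show fl a b (r + 10 - 10) < d
    rw [Nat.add_sub_cancel]
    exact hd

theorem memB4S {d : ℕ} (hd : 0 < d) (hd' : d ≤ 6) : (2, 1, 5, d) ∈ B4 := by
  unfold B4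
  simp only [Finset.mem_union]
  left; right
  simp only [Finset.mem_product, Finset.mem_singleton, Finset.mem_Icc, true_and]
  omega

theorem memB4S' {d : ℕ} (hd : 0 < d) (hd' : d ≤ 5) : (2, 1, 10, d) ∈ B4 := by
  unfold B4
  simp only [Finset.mem_union]
  right
  simp only [Finset.mem_product, Finset.mem_singleton, Finset.mem_Icc, true_and]
  omega
/-- The number `⌊6 s / 5⌋`. -/
theorem fl_spec {a b r : ℕ} (hab : (a = 1 ∧ 1 ≤ b ∧ b ≤ 3) ∨ (a = 2 ∧ b = 1)) (hr : 0 < r)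
    (hr' : r + a ≤ 6) :
    0 < (r : ℚ) - (2 * b - a) / 6 ∧ ((fl a b r : ℕ) : ℚ) ≤ 6 * ((r : ℚ) - (2 * b - a) / 6) / 5 ∧
      6 * ((r : ℚ) - (2 * b - a) / 6) / 5 < (fl a b r : ℕ) + 1 ∧ fl a b r ≤ 5 := by
  have h0 : 2 * b ≤ 6 * r + a := by omega
  have h1 : 5 * fl a b r + 2 * b ≤ 6 * r + a := by unfold fl; omega
  have h2 : 6 * r + a < 5 * fl a b r + 5 + 2 * b := by unfold fl; omega
  have h3 : 2 * b < 6 * r + a := by omega
  have h1' : (5 * fl a b r + 2 * b : ℚ) ≤ 6 * r + a := by exact_mod_cast h1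
  have h2' : (6 * r + a : ℚ) < 5 * fl a b r + 5 + 2 * b := by exact_mod_cast h2
  have h3' : (2 * b : ℚ) < 6 * r + a := by exact_mod_cast h3
  refine ⟨by linarith, by linarith, by linarith, ?_⟩
  unfold fl
  omega

/-- The standard sectors. -/
theorem sector (a b r : ℕ) (hab : (a = 1 ∧ 1 ≤ b ∧ b ≤ 3) ∨ (a = 2 ∧ b = 1)) (hr : 0 < r)
    (hr' : r + a ≤ 6) :
    (∀ (j : ℕ) (ψ : E.T), E.XL (a - 1) (b - 1) (r - 1) (E.tau ^ j * ψ) ∈
      E.P (((a : ℚ) / 2 + (2 * b - a) / 6) + hh ((r : ℚ) - (2 * b - a) / 6) (j + 1 : ℕ))) ∧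
    (∀ (j : ℕ) (ψ : E.T), E.XL (a - 1) (b - 1) (r + 4) (E.tau ^ j * ψ) ∈
      E.P (((a : ℚ) / 2 + (2 * b - a) / 6) + hh ((r : ℚ) - (2 * b - a) / 6 + 5) (j + 1 : ℕ))) ∧
    (∀ (j : ℕ) (ψ : E.T), E.XL (a - 1) (b - 1) (r + 9) (E.tau ^ j * ψ) ∈
      E.P (((a : ℚ) / 2 + (2 * b - a) / 6) + hh ((r : ℚ) - (2 * b - a) / 6 + 10) (j + 1 : ℕ))) := by
  have ha : 0 < a := by omega
  have hb : 0 < b := by omega
  obtain ⟨h1, h2, h3, h4⟩ := fl_spec hab hr hr'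
  obtain ⟨i, rfl⟩ : ∃ i, a = i + 1 := ⟨a - 1, by omega⟩
  obtain ⟨l, rfl⟩ : ∃ l, b = l + 1 := ⟨b - 1, by omega⟩
  obtain ⟨k, rfl⟩ : ∃ k, r = k + 1 := ⟨r - 1, by omega⟩
  have h := red_std E.tau E.dT E.dT_tau E.T_split E.T_unit
    (E.XL i l k) (E.XL i l (k + 5)) (E.XL i l (k + 10))
    (((k + 1 : ℕ) : ℚ) - (2 * ((l + 1 : ℕ) : ℚ) - ((i + 1 : ℕ) : ℚ)) / 6)
    h1 (fl (i + 1) (l + 1) (k + 1)) h2 h3 h4
    (fun ψ => XL_t E i l k ψ) (fun ψ => XL_t E i l (k + 5) ψ)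
    (by
      intro ψ
      have h5 := rel_z E i l k ψ ψ.2
      have e : (((((k + 1 : ℕ) : ℚ) - (2 * ((l + 1 : ℕ) : ℚ) - ((i + 1 : ℕ) : ℚ)) / 6 : ℚ)) : ℂ) =
          ((k : ℂ) + 1) - (2 * ((l : ℂ) + 1) - ((i : ℂ) + 1)) / 6 := by
        push_cast
        ring
      rw [e]
      exact h5)
    ((((i + 1 : ℕ) : ℚ) / 2 + (2 * ((l + 1 : ℕ) : ℚ) - ((i + 1 : ℕ) : ℚ)) / 6)) E.P
    (brieskorn E.D E.F)
    (fun ψ => cls_mem _ _ _) (fun ψ => cls_mem _ _ _) (fun ψ => cls_mem _ _ _)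
    (fun α β h => P_anti E h) (P_up E) (P_big E)
    (by
      intro j hj
      have e := nh_eq (i + 1) (l + 1) (k + 1) (j + 1)
      rw [← e, EvRing.XL_tau]
      refine P_mem_of E ?_
      exact memB4X hab hr hr' (Nat.succ_pos _) hj h4)
    (by
      intro j hj
      have e := nh_eq (i + 1) (l + 1) (k + 1 + 5) (j + 1)
      have e2 : (((k + 1 + 5 : ℕ) : ℚ) - (2 * ((l + 1 : ℕ) : ℚ) - ((i + 1 : ℕ) : ℚ)) / 6) =
        (((k + 1 : ℕ) : ℚ) - (2 * ((l + 1 : ℕ) : ℚ) - ((i + 1 : ℕ) : ℚ)) / 6) + 5 := by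
        push_cast
        ring
      rw [e2] at e
      rw [← e, EvRing.XL_tau]
      exact P_mem_of E (memB4Y hab hr hr' (Nat.succ_pos _) hj))
    (by
      intro j hj hj'
      have e := nh_eq (i + 1) (l + 1) (k + 1 + 10) (j + 1)
      have e2 : (((k + 1 + 10 : ℕ) : ℚ) - (2 * ((l + 1 : ℕ) : ℚ) - ((i + 1 : ℕ) : ℚ)) / 6) =
        (((k + 1 : ℕ) : ℚ) - (2 * ((l + 1 : ℕ) : ℚ) - ((i + 1 : ℕ) : ℚ)) / 6) + 10 := by
        push_cast
        ring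
      rw [e2] at e
      rw [← e, EvRing.XL_tau]
      exact P_mem_of E (memB4Z hab hr hr' (Nat.lt_succ_of_le hj) hj'))
  exact h

/-- The special sector. -/
theorem sector0 :
    (∀ (j : ℕ) (ψ : E.T), E.XL 1 0 4 (E.tau ^ j * ψ) ∈ E.P (1 + hh 5 (j + 1 : ℕ))) ∧
    (∀ (j : ℕ) (ψ : E.T), E.XL 1 0 9 (E.tau ^ j * ψ) ∈ E.P (1 + hh 10 (j + 1 : ℕ))) := by
  refine red_special E.tau E.dT E.dT_tau E.T_split E.T_unit
    (E.XL 1 0 4) (E.XL 1 0 9) (fun ψ => XL_t E 1 0 4 ψ) (fun ψ => rel_z0 E ψ ψ.2) 1 E.P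
    (brieskorn E.D E.F) (fun ψ => cls_mem _ _ _) (fun ψ => cls_mem _ _ _)
    (fun α β h => P_anti E h) (P_up E) (P_big E) ?_ ?_
  · intro j hj
    have e := nh_eq 2 1 5 (j + 1)
    norm_num at e
    rw [← e, EvRing.XL_tau]
    exact P_mem_of E (memB4S (Nat.succ_pos _) hj)
  · intro j hj
    have e := nh_eq 2 1 10 (j + 1)
    norm_num at e
    rw [← e, EvRing.XL_tau]
    exact P_mem_of E (memB4S' (Nat.succ_pos _) hj)

/-- The statement for the standard sectors. -/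
theorem order_std {a b r : ℕ} (hab : (a = 1 ∧ 1 ≤ b ∧ b ≤ 3) ∨ (a = 2 ∧ b = 1)) (hr : 0 < r)
    (hr' : r + a ≤ 6) (j : ℕ) :
    cls E.D E.F (E.mon (a, b, r, j + 1)) ∈ E.P (nh (a, b, r, j + 1)) ∧
    cls E.D E.F (E.mon (a, b, r + 5, j + 1)) ∈ E.P (nh (a, b, r + 5, j + 1)) ∧
    cls E.D E.F (E.mon (a, b, r + 10, j + 1)) ∈ E.P (nh (a, b, r + 10, j + 1)) := by
  obtain ⟨h1, h2, h3⟩ := sector E a b r hab hr hr'
  have h1 := h1 j 1
  have h2 := h2 j 1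
  have h3 := h3 j 1
  rw [mul_one] at h1 h2 h3
  obtain ⟨i, rfl⟩ : ∃ i, a = i + 1 := ⟨a - 1, by omega⟩
  obtain ⟨l, rfl⟩ : ∃ l, b = l + 1 := ⟨b - 1, by omega⟩
  obtain ⟨k, rfl⟩ : ∃ k, r = k + 1 := ⟨r - 1, by omega⟩
  refine ⟨?_, ?_, ?_⟩
  · rw [nh_eq]
    exact h1
  · rw [nh_eq]
    have e2 : (((k + 1 + 5 : ℕ) : ℚ) - (2 * ((l + 1 : ℕ) : ℚ) - ((i + 1 : ℕ) : ℚ)) / 6) =
        (((k + 1 : ℕ) : ℚ) - (2 * ((l + 1 : ℕ) : ℚ) - ((i + 1 : ℕ) : ℚ)) / 6) + 5 := by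
      push_cast
      ring
    rw [e2]
    exact h2
  · rw [nh_eq]
    have e2 : (((k + 1 + 10 : ℕ) : ℚ) - (2 * ((l + 1 : ℕ) : ℚ) - ((i + 1 : ℕ) : ℚ)) / 6) =
        (((k + 1 : ℕ) : ℚ) - (2 * ((l + 1 : ℕ) : ℚ) - ((i + 1 : ℕ) : ℚ)) / 6) + 10 := by
      push_cast
      ring
    rw [e2]
    exact h3

theorem nh_eq21 (c d : ℕ) : nh (2, 1, c, d) = 1 + hh c d := by
  rw [nh_eq]
  norm_num

theorem order_5 (j : ℕ) :
    cls E.D E.F (E.mon (2, 1, 5, j + 1)) ∈ E.P (1 + hh 5 (j + 1 : ℕ)) := by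
  have h := (sector0 E).1 j 1
  rw [mul_one] at h
  exact h

theorem order_10 (j : ℕ) :
    cls E.D E.F (E.mon (2, 1, 10, j + 1)) ∈ E.P (1 + hh 10 (j + 1 : ℕ)) := by
  have h := (sector0 E).2 j 1
  rw [mul_one] at h
  exact h

theorem hh_le1 (n : ℕ) : hh 15 (n + 6 : ℕ) ≤ hh 10 (n + 13 : ℕ) := by
  unfold hh
  refine le_min ((min_le_left _ _).trans ?_) ((min_le_right _ _).trans ?_) <;>
  · push_cast
    linarith

theorem hh_le2 (m : ℕ) : hh 15 (m + 7 : ℕ) ≤ hh 10 (m + 1 : ℕ) + 1 := by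
  unfold hh
  rw [← min_add_add_right]
  refine le_min ((min_le_left _ _).trans ?_) ((min_le_right _ _).trans ?_) <;>
  · push_cast
    linarith

theorem hh_le3 {j : ℕ} (hj : j < 5) : hh 15 (j + 1 : ℕ) ≤ hh 5 (j + 1 : ℕ) + 1 := by
  have hj' : (j : ℚ) ≤ 5 := by exact_mod_cast hj.le
  unfold hh
  rw [← min_add_add_right]
  refine le_min ((min_le_left _ _).trans ?_) ((min_le_left _ _).trans ?_) <;>
  · push_cast
    linarith

theorem hh_le4 {j : ℕ} (hj : j < 5) : hh 15 (j + 1 : ℕ) ≤ hh 10 (j + 7 : ℕ) := by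
  have hj' : (j : ℚ) ≤ 5 := by exact_mod_cast hj.le
  unfold hh
  refine le_min ((min_le_left _ _).trans ?_) ((min_le_left _ _).trans ?_) <;>
  · push_cast
    linarith

theorem order_15 (j : ℕ) :
    cls E.D E.F (E.mon (2, 1, 15, j + 1)) ∈ E.P (1 + hh 15 (j + 1 : ℕ)) := by
  rcases lt_or_ge j 5 with hj | hj
  · have h := rel_z E 1 0 4 (E.tau ^ j : E.T) (E.tau ^ j : E.T).2
    have e : (((4 : ℕ) : ℂ) + 1) - (2 * (((0 : ℕ) : ℂ) + 1) - (((1 : ℕ) : ℂ) + 1)) / 6 = 5 := by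
      norm_num
    rw [e] at h
    have h5 : (PowerSeries.X : ℂ⟦X⟧) • cls E.D E.F (E.mon (2, 1, 5, j + 1)) ∈
        E.P (1 + hh 15 (j + 1 : ℕ)) := by
      have h1 := P_up E _ _ (order_5 E j)
      exact P_anti E (by linarith [hh_le3 hj]) h1
    have h10 : cls E.D E.F (E.mon (2, 1, 10, j + 6 + 1)) ∈ E.P (1 + hh 15 (j + 1 : ℕ)) := by
      have h1 := order_10 E (j + 6)
      exact P_anti E (by linarith [hh_le4 hj]) h1
    have e10 : cl E 1 0 (4 + 5) (E.v 3 ^ 6 * (E.tau ^ j : E.T)) =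
        cls E.D E.F (E.mon (2, 1, 10, j + 6 + 1)) := by
      have e1 : E.tau ^ 6 * E.tau ^ j = E.tau ^ (j + 6) := by rw [add_comm j 6, pow_add]
      have e2 : E.XL 1 0 9 (E.tau ^ 6 * E.tau ^ j) = E.XL 1 0 9 (E.tau ^ (j + 6)) := by rw [e1]
      exact e2
    rw [e10] at h
    have h' : (10 : ℂ) • cls E.D E.F (E.mon (2, 1, 15, j + 1)) =
        (5 : ℂ) • (PowerSeries.X : ℂ⟦X⟧) • cls E.D E.F (E.mon (2, 1, 5, j + 1)) -
          (5 : ℂ) • cls E.D E.F (E.mon (2, 1, 10, j + 6 + 1)) := by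
      rw [eq_sub_iff_add_eq]
      exact h.symm
    have h2 : (10 : ℂ) • cls E.D E.F (E.mon (2, 1, 15, j + 1)) ∈ E.P (1 + hh 15 (j + 1 : ℕ)) := by
      rw [h']
      exact Submodule.sub_mem _ (P_smul E 5 h5) (P_smul E 5 h10)
    have h3 := P_smul E (1 / 10) h2
    rw [smul_smul] at h3
    norm_num at h3
    exact h3
  · obtain ⟨n, rfl⟩ : ∃ n, j = 5 + n := ⟨j - 5, by omega⟩
    have h := XL_t E 1 0 9 (E.tau ^ n)
    have e5 : E.tau ^ 5 * E.tau ^ n = E.tau ^ (5 + n) := by rw [pow_add]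
    have e12 : E.tau ^ 12 * E.tau ^ n = E.tau ^ (n + 12) := by rw [add_comm n 12, pow_add]
    rw [e5, e12] at h
    have h12 : E.XL 1 0 9 (E.tau ^ (n + 12)) ∈ E.P (1 + hh 15 (5 + n + 1 : ℕ)) := by
      have h1 := order_10 E (n + 12)
      refine P_anti E ?_ h1
      have h2 := hh_le1 n
      have e : 5 + n + 1 = n + 6 := by omega
      rw [e]
      linarith
    have h0 : (PowerSeries.X : ℂ⟦X⟧) • E.XL 1 0 9 (E.dT (E.tau ^ n)) ∈
        E.P (1 + hh 15 (5 + n + 1 : ℕ)) := by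
      rcases n with _ | m
      · rw [pow_zero, Derivation.map_one_eq_zero, map_zero, smul_zero]
        exact Submodule.zero_mem _
      · have e : E.dT (E.tau ^ (m + 1)) = ((m : ℂ) + 1) • E.tau ^ m := by
          rw [Derivation.leibniz_pow, E.dT_tau, Nat.add_sub_cancel, smul_eq_mul, mul_one,
            ← Nat.cast_smul_eq_nsmul ℂ]
          push_cast
          rfl
        rw [e, map_smul, smul_comm]
        refine P_smul E _ ?_
        have h1 := P_up E _ _ (order_10 E m)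
        refine P_anti E ?_ h1
        have h2 := hh_le2 m
        have e : 5 + (m + 1) + 1 = m + 7 := by omega
        rw [e]
        linarith
    have h' : (6 : ℂ) • E.XL 1 0 (9 + 5) (E.tau ^ (5 + n)) =
        (PowerSeries.X : ℂ⟦X⟧) • E.XL 1 0 9 (E.dT (E.tau ^ n)) -
          (13 : ℂ) • E.XL 1 0 9 (E.tau ^ (n + 12)) := by
      rw [eq_sub_iff_add_eq]
      exact h.symm
    have h2 : (6 : ℂ) • E.XL 1 0 (9 + 5) (E.tau ^ (5 + n)) ∈
        E.P (1 + hh 15 (5 + n + 1 : ℕ)) := by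
      rw [h']
      exact Submodule.sub_mem _ h0 (P_smul E 13 h12)
    have h3 := P_smul E (1 / 6) h2
    rw [smul_smul] at h3
    norm_num at h3
    exact h3

/-- ASM2: the order of the class of a monomial is at least its Newton order. -/
theorem asm_order (a b c d : ℕ) (hab : (a = 1 ∧ 1 ≤ b ∧ b ≤ 3) ∨ (a = 2 ∧ b = 1)) (hc : 0 < c)
    (hc' : c ≤ 15) (hd : 0 < d) :
    cls E.D E.F (E.mon (a, b, c, d)) ∈
      Pfil (fun p : B4 => cls E.D E.F (E.mon p)) (fun p : B4 => nh p) (nh (a, b, c, d)) := by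
  obtain ⟨j, rfl⟩ : ∃ j, d = j + 1 := ⟨d - 1, by omega⟩
  show cls E.D E.F (E.mon (a, b, c, j + 1)) ∈ E.P (nh (a, b, c, j + 1))
  by_cases h1 : c + a ≤ 6
  · exact (order_std E hab hc h1 j).1
  by_cases h2 : c = 5
  · obtain ⟨rfl, rfl⟩ : a = 2 ∧ b = 1 := by omega
    subst h2
    rw [nh_eq21]
    exact order_5 E j
  by_cases h3 : c - 5 + a ≤ 6
  · obtain ⟨r, rfl⟩ : ∃ r, c = r + 5 := ⟨c - 5, by omega⟩
    exact (order_std E hab (by omega) (by omega) j).2.1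
  by_cases h4 : c = 10
  · obtain ⟨rfl, rfl⟩ : a = 2 ∧ b = 1 := by omega
    subst h4
    rw [nh_eq21]
    exact order_10 E j
  by_cases h5 : c - 10 + a ≤ 6
  · obtain ⟨r, rfl⟩ : ∃ r, c = r + 10 := ⟨c - 10, by omega⟩
    exact (order_std E hab (by omega) (by omega) j).2.2
  obtain ⟨rfl, rfl, rfl⟩ : a = 2 ∧ b = 1 ∧ c = 15 := by omega
  rw [nh_eq21]
  exact order_15 E j

end

end Pool.Agent.Helper3.Hert
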